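import Pool.Agent.Q42.Tesler

/-!
# Counting Tesler matrices against `(k + 1) ^ (n - 1)`

`IsTesler`, `Tes`, `T` (the number of Tesler matrices with given hook sums) and `hook n k` (the hook
sum vector `(1^k, 0^(n-k))`) are defined in `Pool/Agent/Q42/Tesler.lean`.
-/

set_option autoImplicit false

namespace Pool.Agent.Results.MP_1235ca_co.LowerBound

open Pool.Agent.Q42.Tesler

/-- For all `n ≥ k ≥ 11` there are (finitely many and) at least `(k + 1) ^ (n - 1)` Tesler matrices
of size `n` with hook sums `(1^k, 0^(n-k))`. -/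
theorem result (n k : ℕ) (hk : 11 ≤ k) (hkn : k ≤ n) :
    Finite (Tes (hook n k)) ∧ (k + 1) ^ (n - 1) ≤ T (hook n k) :=
  ⟨inferInstance, main n k hk hkn⟩

end Pool.Agent.Results.MP_1235ca_co.LowerBound
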